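import Mathlib
import Pool.Agent.T6.H18.HH.Main

/-!
# The rectangular module is not in the kernel: almost all even degrees
-/

set_option autoImplicit false

namespace Pool.Agent.Results.MP_96ff56_al.AlmostAllDegrees

open Finset Pool.Agent.T6.H18.HH

/-- **Partial result on Q1.** For each `ε > 0` and each `U`, for all large `X`, all even `d ≤ X` but
at most `X / (log X)^U` have the property: for all `n ≤ d / (2 + ε)`, the map `h_{d,n}` does not
vanish on the `S_{(d^n)} V`-isotypic component of `S^d(S^n V)`. Here `V = ℂ^m` with `m ≥ n`. -/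
theorem result :
    ∀ ε : ℝ, 0 < ε → ∀ U : ℕ, ∃ X₀ : ℕ, ∀ X : ℕ, X₀ ≤ X → ∀ S : Finset ℕ,
      (∀ d ∈ S, d ≤ X ∧ Even d ∧ ∃ m n : ℕ, (2 + ε) * n ≤ d ∧ n ≤ m ∧
        ∀ t ∈ isotypic m d n, hhh t = 0) →
      (S.card : ℝ) ≤ X / Real.log X ^ U :=
  part3

end Pool.Agent.Results.MP_96ff56_al.AlmostAllDegrees
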