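import Mathlib
import Pool.Agent.T6.H18.HH.Odd
import Pool.Agent.T6.H18.HH.Fano

/-!
# The Hermite-Hadamard-Howe map vanishes on a rectangular component
-/

set_option autoImplicit false

namespace Pool.Agent.Results.MP_96ff56_al.Disproof

open Finset Pool.Agent.T6.H18.HH

/-- **Negative answer to Q1 as posed.** For `V = ℂ^m`, `m ≥ 4`: the module `S_{(7^4)} V` occurs in
`S^7(S^4 V)`, and the map `h_{7,4}` vanishes on the `S_{(7^4)} V`-isotypic component of
`S^7(S^4 V)`. -/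
theorem result :
    ∀ m : ℕ, 4 ≤ m → isotypic m 7 4 ≠ ⊥ ∧ ∀ t ∈ isotypic m 7 4, hhh t = 0 :=
  fun _ hm => ⟨isotypic_ne_bot hm, fun t ht => hhh_odd ⟨3, by norm_num⟩ (by norm_num) t ht⟩

end Pool.Agent.Results.MP_96ff56_al.Disproof
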