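import Mathlib
import Pool.Agent.T6.H18.HH.Main

/-!
# The rectangular module is not in the kernel: large even degrees, a linear range
-/

set_option autoImplicit false

namespace Pool.Agent.Results.MP_96ff56_al.LinearRange

open Finset Pool.Agent.T6.H18.HH

/-- **Partial result on Q1.** For each `ε > 0` there is an `N` such that for all even `d ≥ N` and
all `n ≤ d / (3 + ε)`, the map `h_{d,n}` does not vanish on the `S_{(d^n)} V`-isotypic component of
`S^d(S^n V)`. Here `V = ℂ^m` with `m ≥ n`. -/
theorem result :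
    ∀ ε : ℝ, 0 < ε → ∃ N : ℕ, ∀ m d n : ℕ, N ≤ d → Even d → (3 + ε) * n ≤ d → n ≤ m →
      ∃ t ∈ isotypic m d n, hhh t ≠ 0 :=
  part2

end Pool.Agent.Results.MP_96ff56_al.LinearRange
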