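import Mathlib
import Pool.Agent.T6.H18.HH.Main

/-!
# The rectangular module is not in the kernel: sums of numbers p - 1
-/

set_option autoImplicit false

namespace Pool.Agent.Results.MP_96ff56_al.PrimeSums

open Finset Pool.Agent.T6.H18.HH

/-- **Partial result on Q1.** If the even number `d` is the sum of one or more (not necessarily
distinct) numbers `p - 1`, `p > n` prime, then the map `h_{d,n}` does not vanish on the
`S_{(d^n)} V`-isotypic component of `S^d(S^n V)`. Here `V = ℂ^m` with `m ≥ n`. -/
theorem result :
    ∀ m d n : ℕ, n ≤ m → ∀ s : List ℕ, (∀ p ∈ s, p.Prime ∧ n < p) → s ≠ [] →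
      d = (s.map (fun p => p - 1)).sum → Even d → ∃ t ∈ isotypic m d n, hhh t ≠ 0 :=
  part0

end Pool.Agent.Results.MP_96ff56_al.PrimeSums
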